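import Pool.Agent.H12Homog

set_option autoImplicit false

universe u

namespace Pool.Agent.Results.MP_f6eb76_al.HomogEmb

open Pool.Agent.H12Homog

/-- **Main theorem.** For every commutative ring `K`, every representation over `K` embeds into a
homogeneous representation over `K`. -/
theorem result (K : Type u) [CommRing K] (R : Pool.Agent.H12Homog.Rep K) :
    ∃ R' : Pool.Agent.H12Homog.Rep K, Homogeneous R' ∧ Nonempty (Emb R R') :=
  main K R

end Pool.Agent.Results.MP_f6eb76_al.HomogEmb
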