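import Mathlib

open Function

universe u

namespace Pool.Agent.Results.MP_f6eb76_al.HomogeneousEmbedding

/-- A representation `(V, G)` over `K`: a group `G` together with a right module `V` over the
group algebra `KG`, i.e. a `K`-module `V` with a `K`-linear right action of `G`. -/
structure GRep (K : Type u) [CommRing K] where
  V : Type u
  G : Type u
  [addCommGroup : AddCommGroup V]
  [module : Module K V]
  [group : Group G]
  act : V → G → V
  add_act : ∀ (v w : V) (g : G), act (v + w) g = act v g + act w g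
  smul_act : ∀ (k : K) (v : V) (g : G), act (k • v) g = k • act v g
  act_one : ∀ v : V, act v 1 = v
  act_mul : ∀ (v : V) (g h : G), act v (g * h) = act (act v g) h

attribute [instance] GRep.addCommGroup GRep.module GRep.group

/-- A morphism `(α, β) : (V, G) → (V', G')`: `α` is `K`-linear, `β` is a group homomorphism and
`α (v g) = α (v) β (g)`. -/
structure GRep.Hom {K : Type u} [CommRing K] (A B : GRep K) where
  onV : A.V →ₗ[K] B.V
  onG : A.G →* B.G
  map_act : ∀ (v : A.V) (g : A.G), onV (A.act v g) = B.act (onV v) (onG g)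

/-- An embedding is a morphism with both components injective. -/
def GRep.Hom.IsEmbedding {K : Type u} [CommRing K] {A B : GRep K} (φ : GRep.Hom A B) : Prop :=
  Injective φ.onV ∧ Injective φ.onG

/-- An isomorphism is a morphism with both components bijective. -/
def GRep.Hom.IsIso {K : Type u} [CommRing K] {A B : GRep K} (φ : GRep.Hom A B) : Prop :=
  Bijective φ.onV ∧ Bijective φ.onG

/-- A subrepresentation `(W, H)`: a subgroup `H` and a `KH`-submodule `W`. -/
structure GRep.Sub {K : Type u} [CommRing K] (R : GRep K) where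
  W : Submodule K R.V
  H : Subgroup R.G
  act_mem : ∀ w ∈ W, ∀ h ∈ H, R.act w h ∈ W

/-- The action of `H` on `W`. -/
def GRep.Sub.act {K : Type u} [CommRing K] {R : GRep K} (S : R.Sub) (w : S.W) (h : S.H) : S.W :=
  ⟨R.act w h, S.act_mem _ w.2 _ h.2⟩

theorem GRep.Sub.add_act {K : Type u} [CommRing K] {R : GRep K} (S : R.Sub) (v w : S.W)
    (g : S.H) : S.act (v + w) g = S.act v g + S.act w g := Subtype.ext (R.add_act _ _ _)

theorem GRep.Sub.smul_act {K : Type u} [CommRing K] {R : GRep K} (S : R.Sub) (k : K) (v : S.W)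
    (g : S.H) : S.act (k • v) g = k • S.act v g := Subtype.ext (R.smul_act _ _ _)

theorem GRep.Sub.act_one {K : Type u} [CommRing K] {R : GRep K} (S : R.Sub) (v : S.W) :
    S.act v 1 = v := Subtype.ext (R.act_one _)

theorem GRep.Sub.act_mul {K : Type u} [CommRing K] {R : GRep K} (S : R.Sub) (v : S.W)
    (g h : S.H) : S.act v (g * h) = S.act (S.act v g) h := Subtype.ext (R.act_mul _ _ _)

/-- A subrepresentation, seen as a representation. -/
def GRep.Sub.toGRep {K : Type u} [CommRing K] {R : GRep K} (S : R.Sub) : GRep K where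
  V := S.W
  G := S.H
  act := S.act
  add_act := S.add_act
  smul_act := S.smul_act
  act_one := S.act_one
  act_mul := S.act_mul

/-- The inclusion of a subrepresentation. -/
def GRep.Sub.incl {K : Type u} [CommRing K] {R : GRep K} (S : R.Sub) : GRep.Hom S.toGRep R where
  onV := S.W.subtype
  onG := S.H.subtype
  map_act _ _ := rfl

/-- Composition of morphisms. -/
def GRep.Hom.comp {K : Type u} [CommRing K] {A B C : GRep K} (g : GRep.Hom B C)
    (f : GRep.Hom A B) : GRep.Hom A C where
  onV := g.onV.comp f.onV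
  onG := g.onG.comp f.onG
  map_act v h := (congrArg g.onV (f.map_act v h)).trans (g.map_act _ _)

/-- `(W, H)` is finitely generated: `H` is a finitely generated group and `W` is generated, as a
`KH`-module, by a finite set `F`: `F ⊆ W` and every `KH`-submodule containing `F` contains `W`. -/
def GRep.Sub.FG {K : Type u} [CommRing K] {R : GRep K} (S : R.Sub) : Prop :=
  S.H.FG ∧ ∃ F : Set R.V, F.Finite ∧ F ⊆ S.W ∧
    ∀ W' : Submodule K R.V, F ⊆ W' → (∀ w ∈ W', ∀ h ∈ S.H, R.act w h ∈ W') → S.W ≤ W'

/-- `(V, G)` is homogeneous: each isomorphism between finitely generated subrepresentations is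
the restriction of an automorphism `ψ` of `(V, G)`: `ψ ∘ incl S = incl T ∘ φ`. -/
def GRep.Homogeneous {K : Type u} [CommRing K] (R : GRep K) : Prop :=
  ∀ S T : R.Sub, S.FG → T.FG → ∀ φ : GRep.Hom S.toGRep T.toGRep, φ.IsIso →
    ∃ ψ : GRep.Hom R R, ψ.IsIso ∧ ψ.comp S.incl = T.incl.comp φ

/-! ### Free orbits -/

section comb

variable {G : Type u} [Group G]

theorem exists_coset_param (H : Subgroup G) :
    ∃ e : G ≃ (G ⧸ H) × H, ∀ (h : H) (x : G), e (h * x) = ((e x).1, h * (e x).2) := by
  have key : ∀ x : G, x * ((QuotientGroup.mk x⁻¹ : G ⧸ H)).out ∈ H := by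
    intro x
    obtain ⟨h, hh⟩ := QuotientGroup.mk_out_eq_mul H x⁻¹
    rw [hh]
    simp
  refine ⟨⟨fun x => (QuotientGroup.mk x⁻¹, ⟨x * ((QuotientGroup.mk x⁻¹ : G ⧸ H)).out, key x⟩),
    fun p => p.2 * p.1.out⁻¹, ?_, ?_⟩, ?_⟩
  · intro x
    simp
  · rintro ⟨q, h⟩
    have h1 : (QuotientGroup.mk ((h : G) * q.out⁻¹)⁻¹ : G ⧸ H) = q := by
      rw [mul_inv_rev, inv_inv]
      conv_rhs => rw [← QuotientGroup.out_eq' q]
      rw [QuotientGroup.eq]
      simp
    ext
    · exact h1
    · simp only [h1]
      simp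
  · intro h x
    have h1 : (QuotientGroup.mk ((h : G) * x)⁻¹ : G ⧸ H) = QuotientGroup.mk x⁻¹ := by
      rw [QuotientGroup.eq]
      simp
    ext
    · exact h1
    · simp only [Equiv.coe_fn_mk, h1]
      simp [mul_assoc]

theorem exists_card_equiv (H : Subgroup G) : Nonempty ((ℕ × G) × (G ⧸ H) ≃ (ℕ × G)) := by
  rw [← Cardinal.eq]
  rw [Cardinal.mk_prod, Cardinal.lift_id, Cardinal.lift_id]
  apply Cardinal.mul_eq_left
  · exact Cardinal.aleph0_le_mk _
  · calc Cardinal.mk (G ⧸ H) ≤ Cardinal.mk G :=
          Cardinal.mk_le_of_surjective (QuotientGroup.mk_surjective)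
      _ ≤ Cardinal.mk (ℕ × G) :=
          Cardinal.mk_le_of_injective (f := fun g : G => ((0 : ℕ), g))
            (fun a b h => (Prod.ext_iff.1 h).2)
  · exact Cardinal.mk_ne_zero _

/-- The set on which everything acts. -/
abbrev Om (G : Type u) := (ℕ × G) × G

/-- Left translation on the last coordinate. -/
def tr : G →* Equiv.Perm (Om G) where
  toFun g := Equiv.prodCongr (Equiv.refl _) (Equiv.mulLeft g)
  map_one' := by ext x <;> simp
  map_mul' a b := by ext x <;> simp [mul_assoc]

theorem tr_apply (g : G) (p : ℕ × G) (x : G) : tr g (p, x) = (p, g * x) := rfl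

theorem tr_injective : Injective (tr : G →* Equiv.Perm (Om G)) := by
  intro a b h
  have := congrArg (fun σ : Equiv.Perm (Om G) => (σ ((0, 1), 1)).2) h
  simpa [tr_apply] using this

theorem exists_param (H : Subgroup G) :
    ∃ e : Om G ≃ (ℕ × G) × H, ∀ (h : H) (w : Om G),
      e (tr (h : G) w) = ((e w).1, h * (e w).2) := by
  obtain ⟨e0, he0⟩ := exists_coset_param H
  obtain ⟨c⟩ := exists_card_equiv H
  refine ⟨(Equiv.prodCongr (Equiv.refl (ℕ × G)) e0).trans
    ((Equiv.prodAssoc (ℕ × G) (G ⧸ H) H).symm.trans (Equiv.prodCongr c (Equiv.refl H))), ?_⟩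
  rintro h ⟨p, x⟩
  simp [tr_apply, he0]

theorem exists_tau (H : Subgroup G) (β : H →* G) (hβ : Injective β) :
    ∃ τ : Equiv.Perm (Om G), ∀ h : H, τ * tr (h : G) = tr (β h) * τ := by
  obtain ⟨e1, he1⟩ := exists_param H
  obtain ⟨e2, he2⟩ := exists_param β.range
  let b : H ≃* β.range := MonoidHom.ofInjective hβ
  refine ⟨e1.trans ((Equiv.prodCongr (Equiv.refl _) b.toEquiv).trans e2.symm), ?_⟩
  intro h
  ext w : 1
  simp only [Equiv.Perm.coe_mul, comp_apply, Equiv.trans_apply]
  rw [Equiv.symm_apply_eq]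
  have : (β h : G) = ((b h : β.range) : G) := rfl
  rw [this, he2, he1]
  simp

end comb

/-! ### The coinduced modules -/

section coind

variable {K : Type u} [CommRing K] {G : Type u} [Group G] {E : Type u} [AddCommGroup E]
  [Module K E]

/-- Pullback along a permutation. -/
def pull (σ : Equiv.Perm (Om G)) : (Om G → E) ≃ₗ[K] (Om G → E) :=
  LinearEquiv.funCongrLeft K E σ

omit [Group G] in
theorem pull_apply (σ : Equiv.Perm (Om G)) (f : Om G → E) (w : Om G) :
    pull (K := K) σ f w = f (σ w) := rfl

omit [Group G] in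
theorem pull_mul (σ τ : Equiv.Perm (Om G)) (f : Om G → E) :
    pull (K := K) (σ * τ) f = pull (K := K) τ (pull (K := K) σ f) := rfl

theorem exists_equivariant_ext (hE : Module.Injective K E) (H : Subgroup G)
    {W : Type u} [AddCommGroup W] [Module K W] (actW : W → H → W)
    (f1 : W →ₗ[K] (Om G → E)) (hf1 : Injective f1)
    (h1 : ∀ w h, f1 (actW w h) = pull (K := K) (tr (h : G)) (f1 w))
    (f2 : W →ₗ[K] (Om G → E))
    (h2 : ∀ w h, f2 (actW w h) = pull (K := K) (tr (h : G)) (f2 w)) :
    ∃ F : (Om G → E) →ₗ[K] (Om G → E), (∀ w, F (f1 w) = f2 w) ∧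
      ∀ (h : H) m, F (pull (K := K) (tr (h : G)) m) = pull (K := K) (tr (h : G)) (F m) := by
  obtain ⟨e, he⟩ := exists_param H
  have hex : ∀ p : ℕ × G, ∃ Fp : (Om G → E) →ₗ[K] E, ∀ w, Fp (f1 w) = f2 w (e.symm (p, 1)) := by
    intro p
    obtain ⟨Fp, hFp⟩ := hE.out f1 hf1 ((LinearMap.proj (e.symm (p, 1))).comp f2)
    exact ⟨Fp, fun w => hFp w⟩
  choose Fp hFp using hex
  have hsymm : ∀ (p : ℕ × G) (h : H), tr (h : G) (e.symm (p, 1)) = e.symm (p, h) := by
    intro p h
    rw [Equiv.eq_symm_apply, he]
    simp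
  refine ⟨LinearMap.pi fun w =>
    (Fp (e w).1).comp (pull (K := K) (tr ((e w).2 : G))).toLinearMap, ?_, ?_⟩
  · intro w
    ext om
    simp only [LinearMap.pi_apply, LinearMap.comp_apply, LinearEquiv.coe_coe]
    rw [← h1, hFp, h2, pull_apply, hsymm]
    simp
  · intro h m
    ext om
    simp only [LinearMap.pi_apply, LinearMap.comp_apply, LinearEquiv.coe_coe, pull_apply]
    rw [he, ← pull_mul, ← map_mul]
    rfl

/-- The semilinear automorphism extending `j1 w ↦ j2 w`. -/
theorem exists_semilinear (hE : Module.Injective K E) (H : Subgroup G) (β : H →* G)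
    (hβ : Injective β)
    {W : Type u} [AddCommGroup W] [Module K W] (actW : W → H → W)
    (j1 : W →ₗ[K] (Om G → E)) (hj1 : Injective j1)
    (h1 : ∀ w h, j1 (actW w h) = pull (K := K) (tr (h : G)) (j1 w))
    (j2 : W →ₗ[K] (Om G → E)) (hj2 : Injective j2)
    (h2 : ∀ w h, j2 (actW w h) = pull (K := K) (tr (β h)) (j2 w)) :
    ∃ (t : ((Om G → E) × (Om G → E)) ≃ₗ[K] ((Om G → E) × (Om G → E)))
      (τ : Equiv.Perm (Om G)),
      (∀ w, t (j1 w, 0) = (j2 w, 0)) ∧
      (∀ (h : H) m, t (pull (K := K) (tr (h : G)) m.1, pull (K := K) (tr (h : G)) m.2) =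
        (pull (K := K) (tr (β h)) (t m).1, pull (K := K) (tr (β h)) (t m).2)) ∧
      ∀ h : H, τ * tr (h : G) = tr (β h) * τ := by
  obtain ⟨τ, hτ⟩ := exists_tau H β hβ
  -- twist `j2`
  let P : (Om G → E) ≃ₗ[K] (Om G → E) := pull (K := K) τ
  have hP : ∀ (h : H) m, P (pull (K := K) (tr (β h)) m) = pull (K := K) (tr (h : G)) (P m) := by
    intro h m
    show pull (K := K) τ (pull (K := K) (tr (β h)) m) = pull (K := K) (tr (h : G)) (pull τ m)
    rw [← pull_mul, ← pull_mul, hτ]
  have hj2' : Injective (P.toLinearMap.comp j2) := P.injective.comp hj2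
  have h2' : ∀ w h, (P.toLinearMap.comp j2) (actW w h) =
      pull (K := K) (tr (h : G)) ((P.toLinearMap.comp j2) w) := by
    intro w h
    simp only [LinearMap.comp_apply, LinearEquiv.coe_coe]
    rw [h2, hP]
  obtain ⟨f, hf, hf'⟩ := exists_equivariant_ext hE H actW j1 hj1 h1 (P.toLinearMap.comp j2) h2'
  obtain ⟨g, hg, hg'⟩ := exists_equivariant_ext hE H actW (P.toLinearMap.comp j2) hj2' h2' j1 h1
  simp only [LinearMap.comp_apply, LinearEquiv.coe_coe] at hf hg
  have hPs : ∀ (h : H) m, P.symm (pull (K := K) (tr (h : G)) m) =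
      pull (K := K) (tr (β h)) (P.symm m) := by
    intro h m
    rw [LinearEquiv.symm_apply_eq, hP, LinearEquiv.apply_symm_apply]
  let s : ((Om G → E) × (Om G → E)) ≃ₗ[K] ((Om G → E) × (Om G → E)) :=
    { toFun := fun m => (m.2 + f m.1, m.1 - g (m.2 + f m.1))
      map_add' := by
        intro a b
        ext1 <;> simp only [Prod.fst_add, Prod.snd_add, map_add] <;> abel
      map_smul' := by
        intro k a
        ext1 <;> simp [smul_sub]
      invFun := fun m => (m.2 + g m.1, m.1 - f (m.2 + g m.1))
      left_inv := by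
        intro m
        ext1 <;> simp
      right_inv := by
        intro m
        ext1 <;> simp }
  refine ⟨s.trans (P.symm.prodCongr P.symm), τ, ?_, ?_, hτ⟩
  · intro w
    have hs : s (j1 w, 0) = (P (j2 w), 0) := by
      show ((0 : Om G → E) + f (j1 w), j1 w - g (0 + f (j1 w))) = _
      rw [zero_add, hf, hg, sub_self]
    rw [LinearEquiv.trans_apply, hs]
    ext1 <;> simp
  · intro h m
    have hs : s (pull (K := K) (tr (h : G)) m.1, pull (K := K) (tr (h : G)) m.2) =
        (pull (K := K) (tr (h : G)) (s m).1, pull (K := K) (tr (h : G)) (s m).2) := by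
      show (pull (K := K) (tr (h : G)) m.2 + f (pull (K := K) (tr (h : G)) m.1),
        pull (K := K) (tr (h : G)) m.1 - g (pull (K := K) (tr (h : G)) m.2 +
          f (pull (K := K) (tr (h : G)) m.1))) =
        (pull (K := K) (tr (h : G)) (m.2 + f m.1),
          pull (K := K) (tr (h : G)) (m.1 - g (m.2 + f m.1)))
      rw [hf', ← map_add, hg', ← map_sub]
    rw [LinearEquiv.trans_apply, hs, LinearEquiv.trans_apply]
    ext1
    · exact hPs h _
    · exact hPs h _

end coind

/-! ### One step -/

/-- `B` (containing `A` through `i`) realises each partial isomorphism of `A` by an element. -/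
def Step {K : Type u} [CommRing K] (A B : GRep K) (i : GRep.Hom A B) : Prop :=
  i.IsEmbedding ∧ ∀ (S : A.Sub) (α : S.W →ₗ[K] A.V) (β : S.H →* A.G),
    Injective α → Injective β →
    (∀ (w : S.W) (h : S.H), α ⟨A.act w h, S.act_mem _ w.2 _ h.2⟩ = A.act (α w) (β h)) →
    ∃ t : B.G, (∀ w : S.W, B.act (i.onV w) t = i.onV (α w)) ∧
      ∀ h : S.H, i.onG h * t = t * i.onG (β h)

theorem exists_injective_embedding (K : Type u) [CommRing K] (V : Type u) [AddCommGroup V]
    [Module K V] : ∃ (E : Type u) (_ : AddCommGroup E) (_ : Module K E) (ι : V →ₗ[K] E),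
      Module.Injective K E ∧ Injective ι := by
  let X : ModuleCat.{u} K := ModuleCat.of K V
  let I := CategoryTheory.Injective.under X
  let f : X ⟶ I := CategoryTheory.Injective.ι X
  have hI : CategoryTheory.Injective I := inferInstance
  have hI' : CategoryTheory.Injective (ModuleCat.of K I) := hI
  refine ⟨I, inferInstance, inferInstance, f.hom,
    Module.injective_module_of_injective_object K I, ?_⟩
  exact (ModuleCat.mono_iff_injective f).1 inferInstance

theorem exists_step {K : Type u} [CommRing K] (A : GRep K) :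
    ∃ (B : GRep K) (i : GRep.Hom A B), Step A B i := by
  obtain ⟨E, _, _, ι, hE, hι⟩ := exists_injective_embedding K A.V
  let M := Om A.G → E
  let B : GRep K :=
    { V := M × M
      G := ((M × M) ≃ₗ[K] (M × M))ᵐᵒᵖ × Equiv.Perm (Om A.G)
      act := fun v g => g.1.unop v
      add_act := fun v w g => map_add _ _ _
      smul_act := fun k v g => map_smul _ _ _
      act_one := fun v => rfl
      act_mul := fun v g h => rfl }
  let emb : A.V →ₗ[K] M :=
    { toFun := fun v om => ι (A.act v om.2)
      map_add' := by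
        intro a b
        ext om
        simp only [A.add_act, map_add]
        rfl
      map_smul' := by
        intro k a
        ext om
        simp only [A.smul_act, map_smul]
        rfl }
  have hemb : Injective emb := by
    intro a b h
    have h1 := congrFun h ((0, 1), 1)
    have h2 : ι (A.act a 1) = ι (A.act b 1) := h1
    rw [A.act_one, A.act_one] at h2
    exact hι h2
  have hembact : ∀ v g, emb (A.act v g) = pull (K := K) (tr g) (emb v) := by
    intro v g
    ext ⟨p, x⟩
    show ι (A.act (A.act v g) x) = ι (A.act v (g * x))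
    rw [A.act_mul]
  let i : GRep.Hom A B :=
    { onV := (LinearMap.inl K M M).comp emb
      onG :=
        { toFun := fun g => (MulOpposite.op ((pull (K := K) (tr g)).prodCongr
            (pull (K := K) (tr g))), tr g)
          map_one' := by
            rw [map_one]
            rfl
          map_mul' := by
            intro g h
            rw [map_mul]
            rfl }
      map_act := by
        intro v g
        show (emb (A.act v g), (0 : M)) = (pull (K := K) (tr g) (emb v), pull (K := K) (tr g) 0)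
        rw [hembact, map_zero] }
  refine ⟨B, i, ⟨?_, ?_⟩, ?_⟩
  · intro a b h
    have h1 : (emb a, (0 : M)) = (emb b, 0) := h
    exact hemb (Prod.ext_iff.1 h1).1
  · intro a b h
    have h1 := (Prod.ext_iff.1 h).2
    exact tr_injective h1
  · intro S α β hα hβ hαβ
    obtain ⟨t, τ, ht1, ht2, hτ⟩ := exists_semilinear (K := K) hE S.H β hβ
      (W := S.W) (fun w h => ⟨A.act w h, S.act_mem _ w.2 _ h.2⟩)
      (emb.comp S.W.subtype) (hemb.comp Subtype.val_injective)
      (fun w h => hembact _ _)
      (emb.comp α) (hemb.comp hα)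
      (fun w h => by
        rw [LinearMap.comp_apply, hαβ, hembact]
        rfl)
    refine ⟨(MulOpposite.op t, τ⁻¹), ?_, ?_⟩
    · intro w
      exact ht1 w
    · intro h
      refine Prod.ext ?_ ?_
      · show MulOpposite.op (t * ((pull (K := K) (tr (h : A.G))).prodCongr
            (pull (K := K) (tr (h : A.G))))) =
          MulOpposite.op (((pull (K := K) (tr (β h))).prodCongr
            (pull (K := K) (tr (β h)))) * t)
        congr 1
        ext1 m
        exact ht2 h m
      · show tr (h : A.G) * τ⁻¹ = τ⁻¹ * tr (β h)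
        rw [mul_inv_eq_iff_eq_mul, mul_assoc, eq_inv_mul_iff_mul_eq]
        exact hτ h

/-! ### The union of a chain -/

/-- Identity morphism. -/
def GRep.Hom.id {K : Type u} [CommRing K] (A : GRep K) : GRep.Hom A A where
  onV := LinearMap.id
  onG := MonoidHom.id _
  map_act _ _ := rfl

section chain

variable {K : Type u} [CommRing K] (A : ℕ → GRep K) (st : ∀ n, GRep.Hom (A n) (A (n + 1)))

/-- The composite maps of a chain. -/
noncomputable def hle (m n : ℕ) (h : m ≤ n) : GRep.Hom (A m) (A n) :=
  Nat.leRec (motive := fun n _ => GRep.Hom (A m) (A n)) (GRep.Hom.id (A m))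
    (fun k _ f => (st k).comp f) h

theorem hle_self (m : ℕ) : hle A st m m le_rfl = GRep.Hom.id (A m) := by
  unfold hle
  rw [Nat.leRec_self]

theorem hle_succ (m n : ℕ) (h : m ≤ n) :
    hle A st m (n + 1) (Nat.le_succ_of_le h) = (st n).comp (hle A st m n h) := by
  unfold hle
  rw [Nat.leRec_succ]

theorem hle_trans (m n k : ℕ) (h : m ≤ n) (h' : n ≤ k) :
    hle A st m k (h.trans h') = (hle A st n k h').comp (hle A st m n h) := by
  induction k, h' using Nat.le_induction with
  | base => rw [hle_self]; rfl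
  | succ k hk ih =>
    rw [hle_succ A st n k hk, hle_succ A st m k (h.trans hk), ih]
    rfl

instance dsV : DirectedSystem (fun n => (A n).V) (fun m n h => ((hle A st m n h).onV : _ → _)) where
  map_self m x := by
    show (hle A st m m le_rfl).onV x = x
    rw [hle_self]; rfl
  map_map k j i hij hjk x := by
    show (hle A st j k hjk).onV ((hle A st i j hij).onV x) = _
    rw [hle_trans A st i j k hij hjk]
    rfl

instance dsG : DirectedSystem (fun n => (A n).G) (fun m n h => ((hle A st m n h).onG : _ → _)) where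
  map_self m x := by
    show (hle A st m m le_rfl).onG x = x
    rw [hle_self]; rfl
  map_map k j i hij hjk x := by
    show (hle A st j k hjk).onG ((hle A st i j hij).onG x) = _
    rw [hle_trans A st i j k hij hjk]
    rfl

/-- The module of the limit. -/
abbrev LV := DirectLimit (fun n => (A n).V) (fun m n h => (hle A st m n h).onV)

/-- The group of the limit. -/
abbrev LG := DirectLimit (fun n => (A n).G) (fun m n h => (hle A st m n h).onG)

/-- The action on the limit. -/
noncomputable def lact : LV A st → LG A st → LV A st :=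
  DirectLimit.map₂ (fun m n h => (hle A st m n h).onV) (fun m n h => (hle A st m n h).onG)
    (fun m n h => (hle A st m n h).onV) (fun n => (A n).act)
    (fun m n h x y => (hle A st m n h).map_act x y)

/-- The class of an element of stage `n` in the limit module. -/
noncomputable def mkV (n : ℕ) (v : (A n).V) : LV A st := ⟦⟨n, v⟩⟧

/-- The class of an element of stage `n` in the limit group. -/
noncomputable def mkG (n : ℕ) (v : (A n).G) : LG A st := ⟦⟨n, v⟩⟧

theorem lact_def (n : ℕ) (v : (A n).V) (g : (A n).G) :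
    lact A st (mkV A st n v) (mkG A st n g) = mkV A st n ((A n).act v g) :=
  DirectLimit.map₂_def ..

theorem mkV_hle (m n : ℕ) (h : m ≤ n) (v : (A m).V) :
    mkV A st n ((hle A st m n h).onV v) = mkV A st m v :=
  (DirectLimit.eq_of_le (F := fun n => (A n).V) (f := fun m n h => (hle A st m n h).onV)
    ⟨m, v⟩ n h).symm

theorem mkG_hle (m n : ℕ) (h : m ≤ n) (v : (A m).G) :
    mkG A st n ((hle A st m n h).onG v) = mkG A st m v :=
  (DirectLimit.eq_of_le (F := fun n => (A n).G) (f := fun m n h => (hle A st m n h).onG)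
    ⟨m, v⟩ n h).symm

theorem mkV_add (n : ℕ) (v w : (A n).V) :
    mkV A st n v + mkV A st n w = mkV A st n (v + w) :=
  DirectLimit.add_def (G := fun n => (A n).V) (f := fun m n h => (hle A st m n h).onV) n v w

theorem mkV_smul (n : ℕ) (k : K) (v : (A n).V) :
    k • mkV A st n v = mkV A st n (k • v) := rfl

theorem mkG_mul (n : ℕ) (v w : (A n).G) :
    mkG A st n v * mkG A st n w = mkG A st n (v * w) :=
  DirectLimit.mul_def (G := fun n => (A n).G) (f := fun m n h => (hle A st m n h).onG) n v w

theorem mkG_one (n : ℕ) : (1 : LG A st) = mkG A st n 1 :=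
  DirectLimit.one_def (G := fun n => (A n).G) (f := fun m n h => (hle A st m n h).onG) n

theorem exists_mkV (v : LV A st) : ∃ (n : ℕ) (x : (A n).V), v = mkV A st n x :=
  DirectLimit.exists_eq_mk _ v

theorem exists_mkG (v : LG A st) : ∃ (n : ℕ) (x : (A n).G), v = mkG A st n x :=
  DirectLimit.exists_eq_mk _ v

theorem mkV_inj (h : ∀ m n h, Injective (hle A st m n h).onV) (n : ℕ) : Injective (mkV A st n) :=
  DirectLimit.mk_injective (F := fun n => (A n).V) (fun m n h => (hle A st m n h).onV)
      (fun i j hij => h i j hij) n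

theorem mkG_inj (h : ∀ m n h, Injective (hle A st m n h).onG) (n : ℕ) : Injective (mkG A st n) :=
  DirectLimit.mk_injective (F := fun n => (A n).G) (fun m n h => (hle A st m n h).onG)
      (fun i j hij => h i j hij) n

theorem exists_stage (v w : LV A st) (g h : LG A st) :
    ∃ (n : ℕ) (x y : (A n).V) (z t : (A n).G), v = mkV A st n x ∧ w = mkV A st n y ∧
      g = mkG A st n z ∧ h = mkG A st n t := by
  obtain ⟨n1, x, rfl⟩ := exists_mkV A st v
  obtain ⟨n2, y, rfl⟩ := exists_mkV A st w
  obtain ⟨n3, z, rfl⟩ := exists_mkG A st g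
  obtain ⟨n4, t, rfl⟩ := exists_mkG A st h
  have h1 : n1 ≤ n1 + n2 + n3 + n4 := by omega
  have h2 : n2 ≤ n1 + n2 + n3 + n4 := by omega
  have h3 : n3 ≤ n1 + n2 + n3 + n4 := by omega
  have h4 : n4 ≤ n1 + n2 + n3 + n4 := by omega
  exact ⟨n1 + n2 + n3 + n4, (hle A st _ _ h1).onV x, (hle A st _ _ h2).onV y,
    (hle A st _ _ h3).onG z, (hle A st _ _ h4).onG t, (mkV_hle ..).symm, (mkV_hle ..).symm,
    (mkG_hle ..).symm, (mkG_hle ..).symm⟩

/-- The limit representation. -/
noncomputable def lim : GRep K where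
  V := LV A st
  G := LG A st
  act := lact A st
  add_act v w g := by
    obtain ⟨n, x, y, z, t, rfl, rfl, rfl, -⟩ := exists_stage A st v w g 1
    rw [mkV_add, lact_def, lact_def, lact_def, mkV_add, (A n).add_act]
  smul_act k v g := by
    obtain ⟨n, x, y, z, t, rfl, -, rfl, -⟩ := exists_stage A st v v g 1
    rw [mkV_smul, lact_def, lact_def, mkV_smul, (A n).smul_act]
  act_one v := by
    obtain ⟨n, x, rfl⟩ := exists_mkV A st v
    rw [mkG_one A st n, lact_def, (A n).act_one]
  act_mul v g h := by
    obtain ⟨n, x, y, z, t, rfl, -, rfl, rfl⟩ := exists_stage A st v v g h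
    rw [mkG_mul, lact_def, lact_def, lact_def, (A n).act_mul]

/-- The map of a term of the chain to the limit. -/
noncomputable def toLim (n : ℕ) : GRep.Hom (A n) (lim A st) where
  onV :=
    { toFun := fun v => mkV A st n v
      map_add' := fun v w => (mkV_add A st n v w).symm
      map_smul' := fun k v => rfl }
  onG :=
    { toFun := fun g => mkG A st n g
      map_one' := (mkG_one A st n).symm
      map_mul' := fun v w => (mkG_mul A st n v w).symm }
  map_act v g := (lact_def A st n v g).symm

theorem hle_injV (h : ∀ n, (st n).IsEmbedding) (m n : ℕ) (hmn : m ≤ n) :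
    (hle A st m n hmn).IsEmbedding := by
  induction n, hmn using Nat.le_induction with
  | base => rw [hle_self]; exact ⟨fun _ _ h => h, fun _ _ h => h⟩
  | succ k hk ih =>
    rw [hle_succ A st m k hk]
    exact ⟨(h k).1.comp ih.1, (h k).2.comp ih.2⟩

theorem toLim_embedding (h : ∀ n, (st n).IsEmbedding) (n : ℕ) : (toLim A st n).IsEmbedding := by
  constructor
  · exact mkV_inj A st (fun i j hij => (hle_injV A st h i j hij).1) n
  · exact mkG_inj A st (fun i j hij => (hle_injV A st h i j hij).2) n

theorem toLim_rangeV (m n : ℕ) (h : m ≤ n) :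
    LinearMap.range (toLim A st m).onV ≤ LinearMap.range (toLim A st n).onV := by
  rintro _ ⟨x, rfl⟩
  exact ⟨(hle A st m n h).onV x, mkV_hle A st m n h x⟩

theorem toLim_rangeG (m n : ℕ) (h : m ≤ n) :
    (toLim A st m).onG.range ≤ (toLim A st n).onG.range := by
  rintro _ ⟨x, rfl⟩
  exact ⟨(hle A st m n h).onG x, mkG_hle A st m n h x⟩

theorem toLim_succV (n : ℕ) (v : (A n).V) :
    (toLim A st (n + 1)).onV ((st n).onV v) = (toLim A st n).onV v := by
  have h := hle_succ A st n n le_rfl
  rw [hle_self] at h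
  have h2 := mkV_hle A st n (n + 1) (Nat.le_succ_of_le le_rfl) v
  rw [h] at h2
  exact h2

theorem toLim_succG (n : ℕ) (v : (A n).G) :
    (toLim A st (n + 1)).onG ((st n).onG v) = (toLim A st n).onG v := by
  have h := hle_succ A st n n le_rfl
  rw [hle_self] at h
  have h2 := mkG_hle A st n (n + 1) (Nat.le_succ_of_le le_rfl) v
  rw [h] at h2
  exact h2

/-- A finitely generated subrepresentation lives at a finite stage. -/
theorem fg_stage (S : (lim A st).Sub) (hS : S.FG) :
    ∃ n : ℕ, ∀ m, n ≤ m → S.W ≤ LinearMap.range (toLim A st m).onV ∧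
      S.H ≤ (toLim A st m).onG.range := by
  obtain ⟨hG, F, hFfin, hFW, hF⟩ := hS
  have h1 : ∃ n : ℕ, F ⊆ LinearMap.range (toLim A st n).onV := by
    clear hFW hF
    induction F, hFfin using Set.Finite.induction_on with
    | empty => exact ⟨0, by simp⟩
    | @insert a s _ _ ih =>
      obtain ⟨n, hn⟩ := ih
      obtain ⟨m, x, hx⟩ := exists_mkV A st a
      refine ⟨max n m, Set.insert_subset ?_ ?_⟩
      · exact toLim_rangeV A st m _ (le_max_right _ _) ⟨x, hx.symm⟩
      · exact fun y hy => toLim_rangeV A st n _ (le_max_left _ _) (hn hy)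
  obtain ⟨T, hT, hTfin⟩ := (Subgroup.fg_iff _).1 hG
  have h2 : ∃ n : ℕ, T ⊆ (toLim A st n).onG.range := by
    clear hT
    induction T, hTfin using Set.Finite.induction_on with
    | empty => exact ⟨0, by simp⟩
    | @insert a s _ _ ih =>
      obtain ⟨n, hn⟩ := ih
      obtain ⟨m, x, hx⟩ := exists_mkG A st a
      refine ⟨max n m, Set.insert_subset ?_ ?_⟩
      · exact toLim_rangeG A st m _ (le_max_right _ _) ⟨x, hx.symm⟩
      · exact fun y hy => toLim_rangeG A st n _ (le_max_left _ _) (hn hy)
  obtain ⟨n1, hn1⟩ := h1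
  obtain ⟨n2, hn2⟩ := h2
  refine ⟨max n1 n2, fun m hm => ?_⟩
  have hH : S.H ≤ (toLim A st m).onG.range := by
    rw [← hT, Subgroup.closure_le]
    exact fun y hy => toLim_rangeG A st n2 _ ((le_max_right _ _).trans hm) (hn2 hy)
  refine ⟨?_, hH⟩
  apply hF
  · exact fun y hy => toLim_rangeV A st n1 _ ((le_max_left _ _).trans hm) (hn1 hy)
  · rintro _ ⟨v, rfl⟩ h hh
    obtain ⟨g, rfl⟩ := hH hh
    exact ⟨(A m).act v g, (toLim A st m).map_act v g⟩

theorem hom_ext {K : Type u} [CommRing K] {A B : GRep K} (f g : GRep.Hom A B)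
    (h1 : ∀ v, f.onV v = g.onV v) (h2 : ∀ v, f.onG v = g.onG v) : f = g := by
  obtain ⟨a, b, c⟩ := f
  obtain ⟨a', b', c'⟩ := g
  have e1 : a = a' := LinearMap.ext h1
  have e2 : b = b' := MonoidHom.ext h2
  subst e1 e2
  rfl

theorem lim_homogeneous (hst : ∀ n, Step (A n) (A (n + 1)) (st n)) :
    (lim A st).Homogeneous := by
  intro S T hS hT φ hφ
  have hemb : ∀ n, (toLim A st n).IsEmbedding := toLim_embedding A st (fun n => (hst n).1)
  obtain ⟨n1, hn1⟩ := fg_stage A st S hS
  obtain ⟨n2, hn2⟩ := fg_stage A st T hT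
  obtain ⟨n, hnS, hnT⟩ : ∃ n, (S.W ≤ LinearMap.range (toLim A st n).onV ∧
      S.H ≤ (toLim A st n).onG.range) ∧ (T.W ≤ LinearMap.range (toLim A st n).onV ∧
      T.H ≤ (toLim A st n).onG.range) :=
    ⟨max n1 n2, hn1 _ (le_max_left _ _), hn2 _ (le_max_right _ _)⟩
  let Sn : (A n).Sub :=
    { W := S.W.comap (toLim A st n).onV
      H := S.H.comap (toLim A st n).onG
      act_mem := by
        intro w hw h hh
        show (toLim A st n).onV ((A n).act w h) ∈ S.W
        rw [(toLim A st n).map_act]
        exact S.act_mem _ hw _ hh }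
  let rV : Sn.W →ₗ[K] S.toGRep.V :=
    ((toLim A st n).onV.comp Sn.W.subtype).codRestrict S.W (fun w => w.2)
  let rG : Sn.H →* S.toGRep.G :=
    ((toLim A st n).onG.comp Sn.H.subtype).codRestrict S.H (fun w => w.2)
  let eV := LinearEquiv.ofInjective (toLim A st n).onV (hemb n).1
  let eG := MonoidHom.ofInjective (hemb n).2
  let α : Sn.W →ₗ[K] (A n).V :=
    (eV.symm.toLinearMap.comp (Submodule.inclusion hnT.1)).comp (φ.onV.comp rV)
  let β : Sn.H →* (A n).G :=
    (eG.symm.toMonoidHom.comp (Subgroup.inclusion hnT.2)).comp (φ.onG.comp rG)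
  have hα : ∀ w : Sn.W, (toLim A st n).onV (α w) = T.incl.onV (φ.onV (rV w)) := by
    intro w
    have := eV.apply_symm_apply (Submodule.inclusion hnT.1 (φ.onV (rV w)))
    exact congrArg Subtype.val this
  have hβ : ∀ w : Sn.H, (toLim A st n).onG (β w) = T.incl.onG (φ.onG (rG w)) := by
    intro w
    have := eG.apply_symm_apply (Subgroup.inclusion hnT.2 (φ.onG (rG w)))
    exact congrArg Subtype.val this
  have hrV : Injective rV := by
    intro a b h
    have h1 := congrArg Subtype.val h
    exact Subtype.ext ((hemb n).1 h1)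
  have hrG : Injective rG := by
    intro a b h
    have h1 := congrArg Subtype.val h
    exact Subtype.ext ((hemb n).2 h1)
  have hαinj : Injective α := by
    intro a b h
    have h1 := congrArg (toLim A st n).onV h
    rw [hα, hα] at h1
    exact hrV (hφ.1.1 (Subtype.ext h1))
  have hβinj : Injective β := by
    intro a b h
    have h1 := congrArg (toLim A st n).onG h
    rw [hβ, hβ] at h1
    exact hrG (hφ.2.1 (Subtype.ext h1))
  obtain ⟨t, ht1, ht2⟩ := (hst n).2 Sn α β hαinj hβinj (by
    intro w h
    apply (hemb n).1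
    rw [hα, (toLim A st n).map_act, hα, hβ]
    have h1 : rV ⟨(A n).act w h, Sn.act_mem _ w.2 _ h.2⟩ = S.toGRep.act (rV w) (rG h) :=
      Subtype.ext ((toLim A st n).map_act _ _)
    rw [h1, φ.map_act, T.incl.map_act])
  let R := lim A st
  let T' : R.G := (toLim A st (n + 1)).onG t
  let ψ : GRep.Hom R R :=
    { onV :=
        { toFun := fun v => R.act v T'
          map_add' := fun v w => R.add_act v w T'
          map_smul' := fun k v => R.smul_act k v T' }
      onG :=
        { toFun := fun g => T'⁻¹ * g * T'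
          map_one' := by simp
          map_mul' := by intro a b; group }
      map_act := by
        intro v g
        show R.act (R.act v g) T' = R.act (R.act v T') (T'⁻¹ * g * T')
        rw [← R.act_mul, ← R.act_mul]
        congr 1
        group }
  refine ⟨ψ, ⟨⟨?_, ?_⟩, ⟨?_, ?_⟩⟩, hom_ext _ _ ?_ ?_⟩
  · intro a b h
    have h1 : R.act a T' = R.act b T' := h
    have h2 := congrArg (fun v => R.act v T'⁻¹) h1
    simpa only [← R.act_mul, mul_inv_cancel, R.act_one] using h2
  · intro a
    refine ⟨R.act a T'⁻¹, ?_⟩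
    show R.act (R.act a T'⁻¹) T' = a
    rw [← R.act_mul, inv_mul_cancel, R.act_one]
  · intro a b h
    have h1 : T'⁻¹ * a * T' = T'⁻¹ * b * T' := h
    simpa using h1
  · intro a
    refine ⟨T' * a * T'⁻¹, ?_⟩
    show T'⁻¹ * (T' * a * T'⁻¹) * T' = a
    group
  · intro w
    obtain ⟨v, hv⟩ := hnS.1 w.2
    have hvm : v ∈ Sn.W := by
      show (toLim A st n).onV v ∈ S.W
      rw [hv]; exact w.2
    have hw : w = rV ⟨v, hvm⟩ := Subtype.ext hv.symm
    show R.act (S.incl.onV w) T' = T.incl.onV (φ.onV w)
    rw [hw, ← hα, ← toLim_succV, ← ht1, (toLim A st (n + 1)).map_act, toLim_succV]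
    rfl
  · intro h
    obtain ⟨g, hg⟩ := hnS.2 h.2
    have hgm : g ∈ Sn.H := by
      show (toLim A st n).onG g ∈ S.H
      rw [hg]; exact h.2
    have hw : h = rG ⟨g, hgm⟩ := Subtype.ext hg.symm
    show T'⁻¹ * (S.incl.onG h) * T' = T.incl.onG (φ.onG h)
    rw [hw, ← hβ, mul_assoc, inv_mul_eq_iff_eq_mul, ← toLim_succG]
    show (toLim A st n).onG g * (toLim A st (n + 1)).onG t = _
    rw [← toLim_succG, ← map_mul, ← map_mul, ← ht2]

end chain

/-- **Main result.** Over every commutative ring `K`, every representation `(V, G)` embeds in a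
homogeneous representation over `K`. -/
theorem result (K : Type u) [CommRing K] (R : GRep K) :
    ∃ R' : GRep K, R'.Homogeneous ∧ ∃ φ : GRep.Hom R R', φ.IsEmbedding := by
  let A : ℕ → GRep K := fun n => Nat.rec R (fun _ B => (exists_step B).choose) n
  let st : ∀ n, GRep.Hom (A n) (A (n + 1)) := fun n => (exists_step (A n)).choose_spec.choose
  have hst : ∀ n, Step (A n) (A (n + 1)) (st n) :=
    fun n => (exists_step (A n)).choose_spec.choose_spec
  exact ⟨lim A st, lim_homogeneous A st hst, toLim A st 0,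
    toLim_embedding A st (fun n => (hst n).1) 0⟩

end Pool.Agent.Results.MP_f6eb76_al.HomogeneousEmbedding
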